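import Mathlib

set_option autoImplicit false

/-! Typical ranks of the pattern with free diagonal: basic facts.
`crank A` is the completion rank; `Bad T s` is the set of matrices having, for some choice of points
of the circle (a point `z` is the line through the diagonal entry, including infinity), corank at
least `s`. -/

open Matrix Set Filter Topology

namespace Pool.Agent.H42.TR

variable {ι : Type*} [Fintype ι] [DecidableEq ι]

/-- the completion rank -/
noncomputable def crank (A : Matrix ι ι ℝ) : ℕ :=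
  sInf {k : ℕ | ∃ d : ι → ℝ, (A + Matrix.diagonal d).rank = k}

theorem crank_le (A : Matrix ι ι ℝ) (d : ι → ℝ) : crank A ≤ (A + Matrix.diagonal d).rank :=
  Nat.sInf_le ⟨d, rfl⟩

theorem exists_crank (A : Matrix ι ι ℝ) : ∃ d : ι → ℝ, (A + Matrix.diagonal d).rank = crank A :=
  Nat.sInf_mem (s := {k : ℕ | ∃ d : ι → ℝ, (A + Matrix.diagonal d).rank = k}) ⟨_, 0, rfl⟩

/-- the matrix of the linear conditions -/
def Bm (A : Matrix ι ι ℝ) (z : ι → ℂ) : Matrix ι ι ℝ :=
  Matrix.diagonal (fun i => (z i).re) + Matrix.diagonal (fun i => (z i).im) * A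

/-- matrices having corank at least `s` at some point of `T` -/
def Bad (T : Set (ι → ℂ)) (s : ℕ) : Set (Matrix ι ι ℝ) :=
  {A | ∃ z ∈ T, ∃ W : Matrix ι (Fin s) ℝ, Wᵀ * W = 1 ∧ Bm A z * W = 0}

/-- the product of circles -/
def circ (ι : Type*) : Set (ι → ℂ) := {z | ∀ i, ‖z i‖ = 1}

omit [Fintype ι] [DecidableEq ι] in
theorem isCompact_circ : IsCompact (circ ι) := by
  have : circ ι = Set.pi univ (fun _ => Metric.sphere (0 : ℂ) 1) := by
    ext z; simp [circ]
  rw [this]
  exact isCompact_univ_pi fun _ => isCompact_sphere _ _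

omit [DecidableEq ι] in
/-- corank at least `s` from an injective matrix of kernel vectors -/
theorem rank_add_le {κ : Type*} [Fintype κ] {s : ℕ} (B : Matrix κ ι ℝ) (W : Matrix ι (Fin s) ℝ)
    (hW : ∀ v, W *ᵥ v = 0 → v = 0) (h : B * W = 0) : B.rank + s ≤ Fintype.card ι := by
  have h1 : W.rank = s := by
    have h2 : Function.Injective W.mulVec := by
      intro v w hvw
      have h3 : W *ᵥ (v - w) = 0 := by
        rw [Matrix.mulVec_sub]; exact sub_eq_zero.mpr hvw
      exact sub_eq_zero.mp (hW _ h3)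
    have h3 : LinearIndependent ℝ W.col := Matrix.mulVec_injective_iff.mp h2
    have h4 : LinearIndependent ℝ (Wᵀ).row := by
      rw [Matrix.row_transpose]; exact h3
    have h5 := h4.rank_matrix
    rw [Matrix.rank_transpose] at h5
    simpa using h5
  have h5 := Matrix.rank_add_rank_le_card_of_mul_eq_zero h
  omega

omit [DecidableEq ι] in
theorem inj_of_orth {s : ℕ} {W : Matrix ι (Fin s) ℝ} (h : Wᵀ * W = 1) (v : Fin s → ℝ)
    (hv : W *ᵥ v = 0) : v = 0 := by
  have : (Wᵀ * W) *ᵥ v = 0 := by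
    rw [← Matrix.mulVec_mulVec, hv, Matrix.mulVec_zero]
  rwa [h, Matrix.one_mulVec] at this

omit [DecidableEq ι] in
/-- an orthonormal matrix of kernel vectors exists if the corank is at least `s` -/
theorem exists_orth {κ : Type*} [Fintype κ] {s : ℕ} (B : Matrix κ ι ℝ)
    (h : B.rank + s ≤ Fintype.card ι) : ∃ W : Matrix ι (Fin s) ℝ, Wᵀ * W = 1 ∧ B * W = 0 := by
  classical
  let f : EuclideanSpace ℝ ι →ₗ[ℝ] (κ → ℝ) :=
    B.mulVecLin ∘ₗ (EuclideanSpace.equiv ι ℝ).toLinearEquiv.toLinearMap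
  have h1 : Module.finrank ℝ (LinearMap.ker f) + B.rank = Fintype.card ι := by
    have h2 := LinearMap.finrank_range_add_finrank_ker f
    have h3 : LinearMap.range f = LinearMap.range B.mulVecLin := by
      rw [LinearMap.range_comp]
      simp
    rw [h3] at h2
    have h4 : Module.finrank ℝ (LinearMap.range B.mulVecLin) = B.rank := rfl
    rw [h4] at h2
    simp only [finrank_euclideanSpace] at h2
    omega
  have h2 : s ≤ Module.finrank ℝ (LinearMap.ker f) := by omega
  let b := stdOrthonormalBasis ℝ (LinearMap.ker f)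
  refine ⟨Matrix.of fun i j => (b (Fin.castLE h2 j) : EuclideanSpace ℝ ι) i, ?_, ?_⟩
  · ext j k
    have h3 := b.orthonormal
    rw [orthonormal_iff_ite] at h3
    have h4 := h3 (Fin.castLE h2 k) (Fin.castLE h2 j)
    rw [Submodule.coe_inner] at h4
    simp only [PiLp.inner_apply, RCLike.inner_apply, conj_trivial] at h4
    simp only [Matrix.mul_apply, Matrix.transpose_apply, Matrix.of_apply, Matrix.one_apply]
    rw [h4]
    simp only [Fin.castLE_inj]
    by_cases hjk : j = k
    · simp [hjk]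
    · simp [hjk, Ne.symm hjk]
  · ext k j
    have h3 : f (b (Fin.castLE h2 j) : EuclideanSpace ℝ ι) = 0 :=
      LinearMap.mem_ker.mp (b (Fin.castLE h2 j)).2
    have h4 : (B *ᵥ fun i => (b (Fin.castLE h2 j) : EuclideanSpace ℝ ι) i) k = 0 := congrFun h3 k
    exact h4

theorem mem_Bad {T : Set (ι → ℂ)} {s : ℕ} {A : Matrix ι ι ℝ} :
    A ∈ Bad T s ↔ ∃ z ∈ T, (Bm A z).rank + s ≤ Fintype.card ι := by
  constructor
  · rintro ⟨z, hz, W, h1, h2⟩
    exact ⟨z, hz, rank_add_le _ W (inj_of_orth h1) h2⟩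
  · rintro ⟨z, hz, h⟩
    obtain ⟨W, h1, h2⟩ := exists_orth _ h
    exact ⟨z, hz, W, h1, h2⟩

omit [DecidableEq ι] in
theorem isCompact_orth (s : ℕ) : IsCompact {W : Matrix ι (Fin s) ℝ | Wᵀ * W = 1} := by
  have hsub : {W : Matrix ι (Fin s) ℝ | Wᵀ * W = 1} ⊆
      Set.pi univ (fun _ => Set.pi univ (fun _ => Icc (-1 : ℝ) 1)) := by
    intro W hW i _ j _
    have h1 := congrFun (congrFun hW j) j
    simp only [Matrix.mul_apply, Matrix.transpose_apply, Matrix.one_apply_eq] at h1
    have h2 : W i j * W i j ≤ 1 := by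
      rw [← h1]
      exact Finset.single_le_sum (f := fun i => W i j * W i j)
        (fun k _ => mul_self_nonneg _) (Finset.mem_univ i)
    rw [Set.mem_Icc]
    exact abs_le.mp (abs_le_one_iff_mul_self_le_one.mpr h2)
  have hK : IsCompact (Set.pi univ (fun _ : ι => Set.pi univ (fun _ : Fin s => Icc (-1 : ℝ) 1))) :=
    isCompact_univ_pi fun _ => isCompact_univ_pi fun _ => isCompact_Icc
  refine hK.of_isClosed_subset ?_ hsub
  have hc : Continuous fun W : Matrix ι (Fin s) ℝ => Wᵀ * W :=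
    (continuous_id.matrix_transpose).matrix_mul continuous_id
  exact isClosed_eq hc continuous_const

theorem continuous_Bm : Continuous fun p : Matrix ι ι ℝ × (ι → ℂ) => Bm p.1 p.2 := by
  unfold Bm
  refine Continuous.add ?_ (Continuous.matrix_mul ?_ continuous_fst)
  · refine Continuous.matrix_diagonal ?_
    exact continuous_pi fun i => Complex.continuous_re.comp ((continuous_apply i).comp continuous_snd)
  · refine Continuous.matrix_diagonal ?_
    exact continuous_pi fun i => Complex.continuous_im.comp ((continuous_apply i).comp continuous_snd)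

/-- projection of a closed set along a compact factor -/
theorem isClosed_proj {X Y : Type*} [TopologicalSpace X] [TopologicalSpace Y] {K : Set Y}
    (hK : IsCompact K) {C : Set (X × Y)} (hC : IsClosed C) :
    IsClosed {x | ∃ y ∈ K, (x, y) ∈ C} := by
  rw [← isOpen_compl_iff, isOpen_iff_mem_nhds]
  intro x hx
  have h1 : ∀ y ∈ K, ∀ᶠ p : X × Y in 𝓝 x ×ˢ 𝓝 y, p ∉ C := by
    intro y hy
    rw [← nhds_prod_eq]
    refine hC.isOpen_compl.mem_nhds ?_
    intro hxy
    exact hx ⟨y, hy, hxy⟩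
  have h2 : ∀ᶠ x' in 𝓝 x, ∀ y ∈ K, (x', y) ∉ C := by
    refine hK.eventually_forall_of_forall_eventually ?_
    intro y hy
    rw [nhds_prod_eq]
    exact h1 y hy
  filter_upwards [h2] with x' hx'
  rintro ⟨y, hy, hxy⟩
  exact hx' y hy hxy

theorem isClosed_Bad {T : Set (ι → ℂ)} (hT : IsCompact T) (s : ℕ) : IsClosed (Bad T s) := by
  have h := isClosed_proj (X := Matrix ι ι ℝ) (hT.prod (isCompact_orth (ι := ι) s))
    (C := {p : Matrix ι ι ℝ × ((ι → ℂ) × Matrix ι (Fin s) ℝ) | Bm p.1 p.2.1 * p.2.2 = 0}) ?_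
  · convert h using 1
    ext A
    constructor
    · rintro ⟨z, hz, W, h1, h2⟩
      exact ⟨(z, W), ⟨hz, h1⟩, h2⟩
    · rintro ⟨⟨z, W⟩, ⟨hz, h1⟩, h2⟩
      exact ⟨z, hz, W, h1, h2⟩
  · refine isClosed_eq ?_ continuous_const
    refine Continuous.matrix_mul ?_ (continuous_snd.comp continuous_snd)
    exact continuous_Bm.comp (continuous_fst.prodMk (continuous_fst.comp continuous_snd))

/-- small completion rank gives a point of the circle product with large corank -/
theorem mem_Bad_of_crank {A : Matrix ι ι ℝ} {s : ℕ} (h : crank A + s ≤ Fintype.card ι) :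
    A ∈ Bad (circ ι) s := by
  obtain ⟨d, hd⟩ := exists_crank A
  have hpos : ∀ i, 0 < ‖(⟨d i, 1⟩ : ℂ)‖ := by
    intro i
    rw [norm_pos_iff]
    intro h0
    have := congrArg Complex.im h0
    simp at this
  refine mem_Bad.mpr ⟨fun i => ((‖(⟨d i, 1⟩ : ℂ)‖⁻¹ : ℝ) : ℂ) * ⟨d i, 1⟩, ?_, ?_⟩
  · intro i
    rw [norm_mul, Complex.norm_real, norm_inv, norm_norm]
    exact inv_mul_cancel₀ (hpos i).ne'
  · have h1 : Bm A (fun i => ((‖(⟨d i, 1⟩ : ℂ)‖⁻¹ : ℝ) : ℂ) * ⟨d i, 1⟩) =
        Matrix.diagonal (fun i => ‖(⟨d i, 1⟩ : ℂ)‖⁻¹) * (A + Matrix.diagonal d) := by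
      unfold Bm
      rw [Matrix.mul_add, Matrix.diagonal_mul_diagonal, add_comm]
      congr 2
      · congr 1
        ext i
        simp
      · ext i
        simp
    rw [h1]
    have h2 := Matrix.rank_mul_le_right (Matrix.diagonal (fun i => ‖(⟨d i, 1⟩ : ℂ)‖⁻¹))
      (A + Matrix.diagonal d)
    omega

end Pool.Agent.H42.TR
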