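import Pool.Agent.H42.TR.Basic

set_option autoImplicit false

/-! In every nonempty open set of matrices the completion rank is constant on some nonempty open
subset. -/

open Matrix Set Filter Topology

namespace Pool.Agent.H42.TR

variable {ι : Type*} [Fintype ι] [DecidableEq ι]

/-- points of the product of circles of type `J`, at distance at least `1/(N+1)` from infinity -/
def typ (J : Finset ι) (N : ℕ) : Set (ι → ℂ) :=
  {z | (∀ i, ‖z i‖ = 1) ∧ ∀ i, (i ∈ J → 1 / ((N : ℝ) + 1) ≤ |(z i).im|) ∧ (i ∉ J → (z i).im = 0)}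

omit [Fintype ι] [DecidableEq ι] in
theorem isCompact_typ (J : Finset ι) (N : ℕ) : IsCompact (typ J N) := by
  have h : typ J N = circ ι ∩ ⋂ i, {z : ι → ℂ | (i ∈ J → 1 / ((N : ℝ) + 1) ≤ |(z i).im|) ∧
      (i ∉ J → (z i).im = 0)} := by
    ext z
    simp only [typ, circ, mem_inter_iff, mem_iInter]
    rfl
  rw [h]
  refine isCompact_circ.inter_right (isClosed_iInter fun i => ?_)
  by_cases hi : i ∈ J
  · have : {z : ι → ℂ | (i ∈ J → 1 / ((N : ℝ) + 1) ≤ |(z i).im|) ∧ (i ∉ J → (z i).im = 0)} =
        {z : ι → ℂ | 1 / ((N : ℝ) + 1) ≤ |(z i).im|} := by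
      ext z; simp [hi]
    rw [this]
    exact isClosed_le continuous_const
      (continuous_abs.comp (Complex.continuous_im.comp (continuous_apply i)))
  · have : {z : ι → ℂ | (i ∈ J → 1 / ((N : ℝ) + 1) ≤ |(z i).im|) ∧ (i ∉ J → (z i).im = 0)} =
        {z : ι → ℂ | (z i).im = 0} := by
      ext z; simp [hi]
    rw [this]
    exact isClosed_eq (Complex.continuous_im.comp (continuous_apply i)) continuous_const

/-- the shift of a solution of type `J` -/
theorem crank_le_of_typ {A A' : Matrix ι ι ℝ} {J : Finset ι} {N : ℕ} {z : ι → ℂ}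
    (hz : z ∈ typ J N) {ε : ℝ} (hε : ε ≠ 0)
    (hA' : A' * (1 + ε • (Matrix.diagonal (fun i => if i ∈ J then (0 : ℝ) else 1) * A)) = A) :
    crank A ≤ (Bm A' z).rank := by
  have him : ∀ i ∈ J, (z i).im ≠ 0 := by
    intro i hi h0
    have h1 := (hz.2 i).1 hi
    rw [h0, abs_zero] at h1
    have : (0 : ℝ) < 1 / ((N : ℝ) + 1) := by positivity
    linarith
  have hre : ∀ i ∉ J, (z i).re ≠ 0 := by
    intro i hi h0
    have h1 := hz.1 i
    have h2 := (hz.2 i).2 hi
    have h3 : z i = 0 := Complex.ext h0 h2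
    rw [h3, norm_zero] at h1
    exact zero_ne_one h1
  set d : ι → ℝ := fun i => if i ∈ J then (z i).re / (z i).im else ε⁻¹ with hd
  set g : ι → ℝ := fun i => if i ∈ J then ((z i).im)⁻¹ else (ε * (z i).re)⁻¹ with hg
  have key : A + Matrix.diagonal d = Matrix.diagonal g * Bm A' z *
      (1 + ε • (Matrix.diagonal (fun i => if i ∈ J then (0 : ℝ) else 1) * A)) := by
    have h1 : Bm A' z * (1 + ε • (Matrix.diagonal (fun i => if i ∈ J then (0 : ℝ) else 1) * A)) =
        Matrix.diagonal (fun i => (z i).re) *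
          (1 + ε • (Matrix.diagonal (fun i => if i ∈ J then (0 : ℝ) else 1) * A)) +
        Matrix.diagonal (fun i => (z i).im) * A := by
      unfold Bm
      rw [Matrix.add_mul, Matrix.mul_assoc (Matrix.diagonal fun i => (z i).im), hA']
    rw [Matrix.mul_assoc, h1]
    ext i j
    simp only [Matrix.add_apply, Matrix.diagonal_mul, Matrix.smul_apply, smul_eq_mul,
      Matrix.one_apply, Matrix.diagonal_apply]
    by_cases hi : i ∈ J
    · have h2 := him i hi
      simp only [hd, hg, hi, if_true]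
      by_cases hij : i = j
      · simp only [hij, if_true]
        rw [hij] at h2
        field_simp
        ring
      · simp only [hij, if_false]
        field_simp
        ring
    · have h2 := hre i hi
      have h3 := (hz.2 i).2 hi
      simp only [hd, hg, hi, if_false, h3]
      by_cases hij : i = j
      · simp only [hij, if_true]
        rw [hij] at h2
        field_simp
        ring
      · simp only [hij, if_false]
        field_simp
        ring
  calc crank A ≤ (A + Matrix.diagonal d).rank := crank_le A d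
    _ ≤ (Matrix.diagonal g * Bm A' z).rank := by
        rw [key]; exact Matrix.rank_mul_le_left _ _
    _ ≤ (Bm A' z).rank := Matrix.rank_mul_le_right _ _

instance baire_matrix {κ : Type*} [Fintype κ] : BaireSpace (Matrix ι κ ℝ) :=
  inferInstanceAs (BaireSpace (ι → κ → ℝ))

theorem eventually_shift (A : Matrix ι ι ℝ) (E : Matrix ι ι ℝ) {V : Set (Matrix ι ι ℝ)}
    (hV : V ∈ 𝓝 A) : ∃ ε : ℝ, ε ≠ 0 ∧ ∃ A' ∈ V, A' * (1 + ε • (E * A)) = A := by
  let φ : ℝ → Matrix ι ι ℝ := fun ε => 1 + ε • (E * A)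
  have hφ : Continuous φ := by
    refine continuous_const.add ?_
    exact continuous_id.smul continuous_const
  have hdet : Continuous fun ε => (φ ε).det := hφ.matrix_det
  have h0 : φ 0 = 1 := by simp [φ]
  let ψ : ℝ → Matrix ι ι ℝ := fun ε => A * (((φ ε).det)⁻¹ • (φ ε).adjugate)
  have hψ : ContinuousAt ψ 0 := by
    have h1 : ContinuousAt (fun ε => ((φ ε).det)⁻¹) 0 := by
      refine hdet.continuousAt.inv₀ ?_
      rw [h0, Matrix.det_one]; exact one_ne_zero
    have h2 : ContinuousAt (fun ε => (φ ε).adjugate) 0 :=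
      (hφ.matrix_adjugate).continuousAt
    have h3 : ContinuousAt (fun ε => ((φ ε).det)⁻¹ • (φ ε).adjugate) 0 := h1.smul h2
    have h4 : Continuous fun X : Matrix ι ι ℝ => A * X := continuous_const.matrix_mul continuous_id
    exact h4.continuousAt.comp h3
  have hψ0 : ψ 0 = A := by simp [ψ, h0]
  have h1 : ∀ᶠ ε in 𝓝 (0 : ℝ), ψ ε ∈ V := hψ.eventually (by rw [hψ0]; exact hV)
  have h2 : ∀ᶠ ε in 𝓝 (0 : ℝ), (φ ε).det ≠ 0 :=
    hdet.continuousAt.eventually_ne (by rw [h0, Matrix.det_one]; exact one_ne_zero)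
  have h3 : ∃ᶠ ε in 𝓝 (0 : ℝ), ε ≠ 0 := by
    have : (𝓝[≠] (0 : ℝ)).NeBot := inferInstance
    exact frequently_iff_neBot.mpr this
  obtain ⟨ε, hε, h4, h5⟩ := (h3.and_eventually (h1.and h2)).exists
  refine ⟨ε, hε, ψ ε, h4, ?_⟩
  change A * (((φ ε).det)⁻¹ • (φ ε).adjugate) * φ ε = A
  rw [Matrix.mul_assoc, Matrix.smul_mul, Matrix.adjugate_mul, smul_smul, inv_mul_cancel₀ h5,
    one_smul, Matrix.mul_one]

/-- In every nonempty open set the completion rank is constant on a nonempty open subset. -/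
theorem exists_const (U : Set (Matrix ι ι ℝ)) (hU : IsOpen U) (hne : U.Nonempty) :
    ∃ r, (U ∩ interior {A : Matrix ι ι ℝ | crank A = r}).Nonempty := by
  classical
  -- the largest t with U contained in Bad circ t
  have hex : ∃ t, ¬ U ⊆ Bad (circ ι) (t + 1) := by
    refine ⟨Fintype.card ι, fun h => ?_⟩
    obtain ⟨A, hA⟩ := hne
    obtain ⟨z, _, h2⟩ := mem_Bad.mp (h hA)
    omega
  set t := Nat.find hex with ht
  have ht1 : ¬ U ⊆ Bad (circ ι) (t + 1) := Nat.find_spec hex
  have ht0 : U ⊆ Bad (circ ι) t := by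
    rcases Nat.eq_zero_or_pos t with h0 | h0
    · rw [h0]
      intro A _
      refine mem_Bad.mpr ⟨fun _ => 1, fun _ => by simp, ?_⟩
      exact (Matrix.rank_le_card_height _)
    · have h1 : t - 1 < Nat.find hex := by omega
      have h2 := Nat.find_min hex h1
      rw [not_not] at h2
      rwa [Nat.sub_add_cancel h0] at h2
  set U' := U \ Bad (circ ι) (t + 1) with hU'
  have hU'o : IsOpen U' := hU.sdiff (isClosed_Bad isCompact_circ _)
  have hU'n : U'.Nonempty := by
    obtain ⟨A, hA, hA'⟩ := Set.not_subset.mp ht1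
    exact ⟨A, hA, hA'⟩
  -- Baire
  let C : Option (Finset ι × ℕ) → Set (Matrix ι ι ℝ) := fun o =>
    match o with
    | none => U'ᶜ
    | some p => Bad (typ p.1 p.2) t
  have hCc : ∀ o, IsClosed (C o) := by
    intro o
    cases o with
    | none => exact hU'o.isClosed_compl
    | some p => exact isClosed_Bad (isCompact_typ _ _) _
  have hCu : ⋃ o, C o = univ := by
    rw [Set.eq_univ_iff_forall]
    intro A
    by_cases hA : A ∈ U'
    · obtain ⟨z, hz, hr⟩ := mem_Bad.mp (ht0 hA.1)
      let J : Finset ι := Finset.univ.filter fun i => (z i).im ≠ 0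
      have hpos : ∀ i : J, 0 < |(z i).im| := by
        intro i
        have := i.2
        simp only [J, Finset.mem_filter, Finset.mem_univ, true_and] at this
        exact abs_pos.mpr this
      have hN : ∃ N : ℕ, ∀ i : J, 1 / ((N : ℝ) + 1) ≤ |(z i).im| := by
        choose f hf using fun i : J => exists_nat_one_div_lt (hpos i)
        refine ⟨∑ i, f i, fun i => ?_⟩
        have h1 : f i ≤ ∑ i, f i := Finset.single_le_sum (fun _ _ => Nat.zero_le _) (Finset.mem_univ i)
        have h2 : (f i : ℝ) ≤ ((∑ i, f i : ℕ) : ℝ) := by exact_mod_cast h1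
        refine le_trans ?_ (hf i).le
        exact one_div_le_one_div_of_le (by positivity) (by linarith)
      obtain ⟨N, hN⟩ := hN
      refine Set.mem_iUnion.mpr ⟨some (J, N), ?_⟩
      refine mem_Bad.mpr ⟨z, ⟨hz, fun i => ⟨fun hi => hN ⟨i, hi⟩, fun hi => ?_⟩⟩, hr⟩
      by_contra hne0
      exact hi (by simp only [J, Finset.mem_filter, Finset.mem_univ, true_and]; exact hne0)
    · exact Set.mem_iUnion.mpr ⟨none, hA⟩
  have hdense := dense_iUnion_interior_of_closed hCc hCu
  obtain ⟨A, hAU, hA⟩ := hdense.inter_open_nonempty U' hU'o hU'n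
  obtain ⟨o, ho⟩ := Set.mem_iUnion.mp hA
  cases o with
  | none => exact absurd hAU (interior_subset ho)
  | some p =>
    refine ⟨Fintype.card ι - t, A, hAU.1, ?_⟩
    rw [mem_interior]
    refine ⟨U' ∩ interior (Bad (typ p.1 p.2) t), ?_, hU'o.inter isOpen_interior, hAU, ho⟩
    rintro B ⟨hB1, hB2⟩
    have hlow : ¬ crank B + (t + 1) ≤ Fintype.card ι := fun h => hB1.2 (mem_Bad_of_crank h)
    obtain ⟨ε, hε, B', hB', hBB⟩ := eventually_shift B
      (Matrix.diagonal (fun i => if i ∈ p.1 then (0 : ℝ) else 1)) (isOpen_interior.mem_nhds hB2)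
    obtain ⟨z, hz, hr⟩ := mem_Bad.mp (interior_subset hB')
    have hup := crank_le_of_typ hz hε hBB
    change crank B = Fintype.card ι - t
    omega

end Pool.Agent.H42.TR
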