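import Pool.Agent.H42.TR.Low

set_option autoImplicit false

/-! A complex matrix no phase change of which has an imaginary part of small rank, and the real
matrix that it gives. -/

open Matrix Set Filter Topology Module

namespace Pool.Agent.H42.TR

/-- imaginary part after multiplication by phases -/
def ImM {m : ℕ} (A : Fin m → Fin m → ℂ) (δ ε : Fin m → ℂ) : Matrix (Fin m) (Fin m) ℝ :=
  Matrix.of fun j k => (δ j * A j k * ε k).im

/-- rows of a matrix of rank at most `r` -/
theorem exists_rows {m r c : ℕ} (hrc : r + c = m) (Y : Matrix (Fin m) (Fin m) ℝ)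
    (hY : Y.rank ≤ r) : ∃ (e : Fin r ⊕ Fin c ≃ Fin m) (P : Fin c → Fin r → ℝ),
      ∀ l k, Y (e (Sum.inr l)) k = ∑ i, P l i * Y (e (Sum.inl i)) k := by
  classical
  obtain ⟨b, -, -, hspan, hli⟩ := exists_linearIndepOn_extension (K := ℝ) (v := Y.row)
    (s := (∅ : Set (Fin m))) (t := Set.univ) (linearIndepOn_empty ℝ _) (Set.subset_univ _)
  have hcard : b.toFinset.card ≤ r := by
    refine le_trans ?_ hY
    rw [Matrix.rank_eq_finrank_span_row]
    have h1 : LinearIndependent ℝ (fun i : b => Y.row i) := hli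
    have h2 := linearIndependent_iff_card_eq_finrank_span.mp h1
    have h3 : b.toFinset.card = Fintype.card b := Set.toFinset_card b
    rw [h3, h2]
    refine Submodule.finrank_mono (Submodule.span_mono ?_)
    rintro _ ⟨i, rfl⟩
    exact ⟨i, rfl⟩
  obtain ⟨t, hbt, htc⟩ := Finset.exists_superset_card_eq (s := b.toFinset) (n := r) hcard
    (by rw [Fintype.card_fin]; omega)
  have htc' : tᶜ.card = c := by
    rw [Finset.card_compl, Fintype.card_fin, htc]; omega
  let e := finSumEquivOfFinset htc htc'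
  have hmem : ∀ l, ∃ p : Fin r → ℝ, ∑ i, p i • Y.row (e (Sum.inl i)) = Y.row (e (Sum.inr l)) := by
    intro l
    rw [← Submodule.mem_span_range_iff_exists_fun]
    have h1 : Y.row (e (Sum.inr l)) ∈ Submodule.span ℝ (Y.row '' b) :=
      hspan ⟨_, Set.mem_univ _, rfl⟩
    refine Submodule.span_mono ?_ h1
    rintro _ ⟨i, hi, rfl⟩
    have hit : i ∈ t := hbt (Set.mem_toFinset.mpr hi)
    have h2 : i ∈ Set.range (t.orderEmbOfFin htc) := by
      rw [Finset.range_orderEmbOfFin]; exact hit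
    obtain ⟨q, hq⟩ := h2
    exact ⟨q, by simp only [e, finSumEquivOfFinset_inl, hq]⟩
  choose P hP using hmem
  refine ⟨e, P, fun l k => ?_⟩
  have h1 := congrFun (hP l) k
  simp only [Finset.sum_apply, Pi.smul_apply, smul_eq_mul] at h1
  exact h1.symm

/-- the parametrisation of the bad complex matrices -/
noncomputable def Fe {m' r c : ℕ} (e : Fin r ⊕ Fin c ≃ Fin (m' + 1)) :
    ((Fin (m' + 1) → ℝ) × (Fin m' → ℝ) × (Fin (m' + 1) → Fin (m' + 1) → ℝ) ×
      (Fin r → Fin (m' + 1) → ℝ) × (Fin c → Fin r → ℝ)) → Fin (m' + 1) → Fin (m' + 1) → ℂ :=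
  fun p j k => Complex.exp (-(p.1 j : ℂ) * Complex.I) *
    ((p.2.2.1 j k : ℂ) + (Sum.elim (fun i => p.2.2.2.1 i k)
      (fun l => ∑ i, p.2.2.2.2 l i * p.2.2.2.1 i k) (e.symm j) : ℝ) * Complex.I) *
    Complex.exp (-((Fin.cons 0 p.2.1 : Fin (m' + 1) → ℝ) k : ℂ) * Complex.I)

theorem contDiff_Fe {m' r c : ℕ} (e : Fin r ⊕ Fin c ≃ Fin (m' + 1)) : ContDiff ℝ 1 (Fe e) := by
  refine contDiff_pi.mpr fun j => contDiff_pi.mpr fun k => ?_
  unfold Fe
  have hof : ∀ {E : Type} [NormedAddCommGroup E] [NormedSpace ℝ E] (f : E → ℝ), ContDiff ℝ 1 f →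
      ContDiff ℝ 1 (fun x => (f x : ℂ)) := by
    intro E _ _ f hf
    exact Complex.ofRealCLM.contDiff.comp hf
  refine ContDiff.mul (ContDiff.mul ?_ ?_) ?_
  · refine ContDiff.cexp (ContDiff.mul (ContDiff.neg (hof _ ?_)) contDiff_const)
    fun_prop
  · refine ContDiff.add (hof _ ?_) (ContDiff.mul (hof _ ?_) contDiff_const)
    · fun_prop
    · rcases e.symm j with i | l
      · simp only [Sum.elim_inl]
        fun_prop
      · simp only [Sum.elim_inr]
        refine ContDiff.sum fun i _ => ContDiff.mul ?_ ?_ <;> fun_prop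
  · refine ContDiff.cexp (ContDiff.mul (ContDiff.neg (hof _ ?_)) contDiff_const)
    refine Fin.cases ?_ (fun k => ?_) k
    · simp only [Fin.cons_zero]
      exact contDiff_const
    · simp only [Fin.cons_succ]
      fun_prop

theorem mem_range_Fe {m' r c : ℕ} (hrc : r + c = m' + 1) (A : Fin (m' + 1) → Fin (m' + 1) → ℂ)
    (δ ε : Fin (m' + 1) → ℂ) (hδ : ∀ j, ‖δ j‖ = 1) (hε : ∀ j, ‖ε j‖ = 1)
    (hr : (ImM A δ ε).rank ≤ r) : ∃ e : Fin r ⊕ Fin c ≃ Fin (m' + 1), A ∈ Set.range (Fe e) := by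
  obtain ⟨e, P, hP⟩ := exists_rows hrc _ hr
  have hexp : ∀ z : ℂ, ‖z‖ = 1 → Complex.exp (-(z.arg : ℂ) * Complex.I) * z = 1 := by
    intro z hz
    have h1 := Complex.norm_mul_exp_arg_mul_I z
    rw [hz, Complex.ofReal_one, one_mul] at h1
    have h2 : Complex.exp (-(z.arg : ℂ) * Complex.I) * Complex.exp ((z.arg : ℂ) * Complex.I) = 1 := by
      rw [← Complex.exp_add]; simp
    rwa [h1] at h2
  refine ⟨e, ⟨fun j => (δ j * ε 0).arg, fun k => (ε k.succ / ε 0).arg,
    fun j k => (δ j * A j k * ε k).re, fun i k => ImM A δ ε (e (Sum.inl i)) k, P⟩, ?_⟩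
  have hε0 : ε 0 ≠ 0 := by
    intro h; have := hε 0; rw [h, norm_zero] at this; exact zero_ne_one this
  ext j k
  have h1 : (Sum.elim (fun i => ImM A δ ε (e (Sum.inl i)) k)
      (fun l => ∑ i, P l i * ImM A δ ε (e (Sum.inl i)) k) (e.symm j) : ℝ) =
      (δ j * A j k * ε k).im := by
    obtain ⟨s, rfl⟩ := e.surjective j
    rw [Equiv.symm_apply_apply]
    rcases s with i | l
    · rfl
    · rw [Sum.elim_inr, ← hP l k]; rfl
  have h2 : Complex.exp (-((Fin.cons 0 (fun k : Fin m' => (ε k.succ / ε 0).arg) :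
      Fin (m' + 1) → ℝ) k : ℂ) * Complex.I) * (ε k / ε 0) = 1 := by
    refine Fin.cases ?_ (fun k => ?_) k
    · simp [hε0]
    · rw [Fin.cons_succ]
      refine hexp _ ?_
      rw [norm_div, hε, hε, div_one]
  have h3 : Complex.exp (-((δ j * ε 0).arg : ℂ) * Complex.I) * (δ j * ε 0) = 1 := by
    refine hexp _ ?_
    rw [norm_mul, hε, hδ, mul_one]
  simp only [Fe]
  rw [h1, Complex.re_add_im]
  calc _ = (Complex.exp (-((δ j * ε 0).arg : ℂ) * Complex.I) * (δ j * ε 0)) * A j k *
        (Complex.exp (-((Fin.cons 0 (fun k : Fin m' => (ε k.succ / ε 0).arg) :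
          Fin (m' + 1) → ℝ) k : ℂ) * Complex.I) * (ε k / ε 0)) := by
        field_simp
    _ = A j k := by rw [h2, h3]; ring

/-- existence of a good complex matrix -/
theorem exists_good {m' r c : ℕ} (hrc : r + c = m' + 1) (hc : 2 * m' + 1 < c * c) :
    ∃ A : Fin (m' + 1) → Fin (m' + 1) → ℂ,
      (Matrix.of fun j k => (A j k).im : Matrix (Fin (m' + 1)) (Fin (m' + 1)) ℝ).det ≠ 0 ∧
      ∀ δ ε : Fin (m' + 1) → ℂ, (∀ j, ‖δ j‖ = 1) → (∀ j, ‖ε j‖ = 1) → r < (ImM A δ ε).rank := by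
  classical
  let S : Set (Fin (m' + 1) → Fin (m' + 1) → ℂ) :=
    ⋃ e : Fin r ⊕ Fin c ≃ Fin (m' + 1), Set.range (Fe e)
  have hdim : dimH S < (finrank ℝ (Fin (m' + 1) → Fin (m' + 1) → ℂ) : ENNReal) := by
    have h1 : dimH S ≤ (finrank ℝ ((Fin (m' + 1) → ℝ) × (Fin m' → ℝ) ×
        (Fin (m' + 1) → Fin (m' + 1) → ℝ) × (Fin r → Fin (m' + 1) → ℝ) × (Fin c → Fin r → ℝ)) :
          ENNReal) := by
      simp only [S]
      rw [dimH_iUnion]
      exact iSup_le fun e => (contDiff_Fe e).dimH_range_le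
    refine lt_of_le_of_lt h1 ?_
    rw [Nat.cast_lt]
    have h2 : finrank ℝ (Fin (m' + 1) → Fin (m' + 1) → ℂ) = (m' + 1) * ((m' + 1) * 2) := by
      rw [Module.finrank_pi_fintype]
      simp only [Module.finrank_pi_fintype, Complex.finrank_real_complex, Finset.sum_const,
        Finset.card_univ, Fintype.card_fin, smul_eq_mul]
    have h3 : finrank ℝ ((Fin (m' + 1) → ℝ) × (Fin m' → ℝ) ×
        (Fin (m' + 1) → Fin (m' + 1) → ℝ) × (Fin r → Fin (m' + 1) → ℝ) × (Fin c → Fin r → ℝ)) =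
        (m' + 1) + (m' + ((m' + 1) * (m' + 1) + (r * (m' + 1) + c * r))) := by
      simp only [Module.finrank_prod, Module.finrank_pi_fintype, Finset.sum_const,
        Finset.card_univ, Fintype.card_fin, smul_eq_mul, Module.finrank_self, mul_one]
    rw [h2, h3]
    have h4 : r * (m' + 1) + c * r + c * c = (m' + 1) * (m' + 1) := by
      rw [← hrc]; ring
    nlinarith
  have hdense : Dense Sᶜ := dense_compl_of_dimH_lt_finrank hdim
  -- the open set of matrices with invertible imaginary part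
  let D : Set (Fin (m' + 1) → Fin (m' + 1) → ℂ) :=
    {A | (Matrix.of fun j k => (A j k).im : Matrix (Fin (m' + 1)) (Fin (m' + 1)) ℝ).det ≠ 0}
  have hcont : Continuous fun A : Fin (m' + 1) → Fin (m' + 1) → ℂ =>
      (Matrix.of fun j k => (A j k).im : Matrix (Fin (m' + 1)) (Fin (m' + 1)) ℝ) := by
    refine continuous_matrix fun j k => ?_
    exact Complex.continuous_im.comp ((continuous_apply k).comp (continuous_apply j))
  have hDo : IsOpen D := isOpen_ne_fun hcont.matrix_det continuous_const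
  have hDn : D.Nonempty := by
    refine ⟨fun j k => if j = k then Complex.I else 0, ?_⟩
    have h5 : (Matrix.of fun j k : Fin (m' + 1) => (if j = k then Complex.I else 0 : ℂ).im :
        Matrix (Fin (m' + 1)) (Fin (m' + 1)) ℝ) = 1 := by
      ext j k
      by_cases h : j = k <;> simp [h, Matrix.one_apply]
    change (Matrix.of fun j k : Fin (m' + 1) => (if j = k then Complex.I else 0 : ℂ).im :
        Matrix (Fin (m' + 1)) (Fin (m' + 1)) ℝ).det ≠ 0
    rw [h5, Matrix.det_one]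
    exact one_ne_zero
  obtain ⟨A, hAD, hAS⟩ := hdense.inter_open_nonempty D hDo hDn
  refine ⟨A, hAD, fun δ ε hδ hε => ?_⟩
  by_contra hr
  rw [not_lt] at hr
  obtain ⟨e, he⟩ := mem_range_Fe hrc A δ ε hδ hε hr
  exact hAS (Set.mem_iUnion.mpr ⟨e, he⟩)

/-- the real matrix with a complex structure -/
theorem exists_real {m' r c : ℕ} (hrc : r + c = m' + 1) (hc : 2 * m' + 1 < c * c) :
    ∃ M : Matrix (Fin (m' + 1) ⊕ Fin (m' + 1)) (Fin (m' + 1) ⊕ Fin (m' + 1)) ℝ,
      M ∉ Bad (circ (Fin (m' + 1) ⊕ Fin (m' + 1))) c := by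
  classical
  obtain ⟨A, hdet, hgood⟩ := exists_good hrc hc
  let Ar : Matrix (Fin (m' + 1)) (Fin (m' + 1)) ℝ := Matrix.of fun j k => (A j k).re
  let Ai : Matrix (Fin (m' + 1)) (Fin (m' + 1)) ℝ := Matrix.of fun j k => (A j k).im
  let T : Matrix (Fin (m' + 1) ⊕ Fin (m' + 1)) (Fin (m' + 1) ⊕ Fin (m' + 1)) ℝ :=
    Matrix.fromBlocks Ai Ar 0 1
  let T' : Matrix (Fin (m' + 1) ⊕ Fin (m' + 1)) (Fin (m' + 1) ⊕ Fin (m' + 1)) ℝ :=
    Matrix.fromBlocks Ar (-Ai) 1 0
  have hT : T.det ≠ 0 := by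
    simp only [T, Matrix.det_fromBlocks_zero₂₁, Matrix.det_one, mul_one]
    exact hdet
  have hTu : IsUnit T.det := isUnit_iff_ne_zero.mpr hT
  refine ⟨T' * T⁻¹, ?_⟩
  rintro ⟨z, hz, W, hWo, hW⟩
  let G : Matrix (Fin (m' + 1) ⊕ Fin (m' + 1)) (Fin c) ℝ := T⁻¹ * W
  have hTG : T * G = W := by
    simp only [G]
    rw [← Matrix.mul_assoc, Matrix.mul_nonsing_inv T hTu, Matrix.one_mul]
  have hB : Matrix.diagonal (fun i => (z i).re) * (T * G) +
      Matrix.diagonal (fun i => (z i).im) * (T' * G) = 0 := by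
    rw [hTG, ← hW]
    unfold Bm
    rw [Matrix.add_mul, Matrix.mul_assoc (Matrix.diagonal fun i => (z i).im),
      Matrix.mul_assoc T' T⁻¹ W]
  -- entries
  have hTl : ∀ j q, (T * G) (Sum.inl j) q =
      ∑ k, (A j k).im * G (Sum.inl k) q + ∑ k, (A j k).re * G (Sum.inr k) q := by
    intro j q
    simp [T, Ai, Ar, Matrix.mul_apply, Fintype.sum_sum_type]
  have hTr : ∀ k q, (T * G) (Sum.inr k) q = G (Sum.inr k) q := by
    intro k q
    simp [T, Matrix.mul_apply, Fintype.sum_sum_type, Matrix.one_apply]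
  have hTl' : ∀ j q, (T' * G) (Sum.inl j) q =
      ∑ k, (A j k).re * G (Sum.inl k) q - ∑ k, (A j k).im * G (Sum.inr k) q := by
    intro j q
    simp [T', Ai, Ar, Matrix.mul_apply, Fintype.sum_sum_type, sub_eq_add_neg]
  have hTr' : ∀ k q, (T' * G) (Sum.inr k) q = G (Sum.inl k) q := by
    intro k q
    simp [T', Matrix.mul_apply, Fintype.sum_sum_type, Matrix.one_apply]
  have hBl : ∀ j q, (z (Sum.inl j)).re * (T * G) (Sum.inl j) q +
      (z (Sum.inl j)).im * (T' * G) (Sum.inl j) q = 0 := by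
    intro j q
    have := congrFun (congrFun hB (Sum.inl j)) q
    simpa [Matrix.add_apply, Matrix.diagonal_mul] using this
  have hBr : ∀ k q, (z (Sum.inr k)).re * G (Sum.inr k) q +
      (z (Sum.inr k)).im * G (Sum.inl k) q = 0 := by
    intro k q
    have := congrFun (congrFun hB (Sum.inr k)) q
    simp only [Matrix.add_apply, Matrix.diagonal_mul, hTr, hTr', Matrix.zero_apply] at this
    exact this
  have hsq : ∀ i, (z i).re * (z i).re + (z i).im * (z i).im = 1 := by
    intro i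
    have h1 := Complex.normSq_apply (z i)
    rw [Complex.normSq_eq_norm_sq, hz i] at h1
    linarith
  let δ : Fin (m' + 1) → ℂ := fun j => z (Sum.inl j)
  let ε : Fin (m' + 1) → ℂ := fun k => (starRingEnd ℂ) (z (Sum.inr k))
  let S : Matrix (Fin (m' + 1)) (Fin c) ℝ := Matrix.of fun k q =>
    (z (Sum.inr k)).re * G (Sum.inl k) q - (z (Sum.inr k)).im * G (Sum.inr k) q
  have hinj : ∀ v, S *ᵥ v = 0 → v = 0 := by
    intro v hv
    refine inj_of_orth hWo v ?_
    have hg : ∀ k, (G *ᵥ v) (Sum.inl k) = 0 ∧ (G *ᵥ v) (Sum.inr k) = 0 := by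
      intro k
      have h1 : (z (Sum.inr k)).re * (G *ᵥ v) (Sum.inl k) -
          (z (Sum.inr k)).im * (G *ᵥ v) (Sum.inr k) = 0 := by
        have := congrFun hv k
        simp only [Matrix.mulVec, dotProduct, S, Matrix.of_apply, Pi.zero_apply] at this ⊢
        rw [← this, Finset.mul_sum, Finset.mul_sum, ← Finset.sum_sub_distrib]
        exact Finset.sum_congr rfl fun q _ => by ring
      have h2 : (z (Sum.inr k)).re * (G *ᵥ v) (Sum.inr k) +
          (z (Sum.inr k)).im * (G *ᵥ v) (Sum.inl k) = 0 := by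
        simp only [Matrix.mulVec, dotProduct]
        rw [Finset.mul_sum, Finset.mul_sum, ← Finset.sum_add_distrib]
        refine Finset.sum_eq_zero fun q _ => ?_
        have := hBr k q
        linear_combination (v q) * this
      have h3 := hsq (Sum.inr k)
      constructor
      · linear_combination (z (Sum.inr k)).re * h1 + (z (Sum.inr k)).im * h2 -
          (G *ᵥ v) (Sum.inl k) * h3
      · linear_combination (z (Sum.inr k)).re * h2 - (z (Sum.inr k)).im * h1 -
          (G *ᵥ v) (Sum.inr k) * h3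
    have hG0 : G *ᵥ v = 0 := by
      ext i
      rcases i with k | k
      · exact (hg k).1
      · exact (hg k).2
    rw [← hTG, ← Matrix.mulVec_mulVec, hG0, Matrix.mulVec_zero]
  have hIm : ImM A δ ε * S = 0 := by
    ext j q
    rw [Matrix.mul_apply, Matrix.zero_apply]
    have h1 : ∀ k, ImM A δ ε j k * S k q =
        (z (Sum.inl j)).re * ((A j k).im * G (Sum.inl k) q + (A j k).re * G (Sum.inr k) q) +
        (z (Sum.inl j)).im * ((A j k).re * G (Sum.inl k) q - (A j k).im * G (Sum.inr k) q) := by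
      intro k
      have h2 := hBr k q
      have h3 := hsq (Sum.inr k)
      simp only [ImM, S, δ, ε, Matrix.of_apply, Complex.mul_im, Complex.mul_re, Complex.conj_re,
        Complex.conj_im]
      linear_combination
        ((z (Sum.inl j)).re * (A j k).im + (z (Sum.inl j)).im * (A j k).re) *
          (G (Sum.inl k) q * h3 - (z (Sum.inr k)).im * h2) -
        ((z (Sum.inl j)).re * (A j k).re - (z (Sum.inl j)).im * (A j k).im) *
          ((z (Sum.inr k)).re * h2 - G (Sum.inr k) q * h3)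
    simp only [h1]
    rw [Finset.sum_add_distrib, ← Finset.mul_sum, ← Finset.mul_sum, Finset.sum_add_distrib,
      Finset.sum_sub_distrib, ← hTl, ← hTl']
    exact hBl j q
  have hfin := rank_add_le _ S hinj hIm
  have hlt := hgood δ ε (fun j => hz _) (fun k => by
    simp only [ε]; rw [RCLike.norm_conj]; exact hz _)
  rw [Fintype.card_fin] at hfin
  omega

end Pool.Agent.H42.TR
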