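import Pool.Agent.H42.TR.Generic

set_option autoImplicit false

/-! Typical ranks form an interval: changing one row at a time. -/

open Matrix Set Filter Topology

namespace Pool.Agent.H42.TR

variable {ι : Type*} [Fintype ι] [DecidableEq ι]

/-- matrices near which the completion rank is constant -/
def Gs (ι : Type*) [Fintype ι] [DecidableEq ι] : Set (Matrix ι ι ℝ) :=
  ⋃ r, interior {A : Matrix ι ι ℝ | crank A = r}

theorem isOpen_Gs : IsOpen (Gs ι) := isOpen_iUnion fun _ => isOpen_interior

theorem dense_Gs : Dense (Gs ι) := by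
  rw [dense_iff_inter_open]
  intro U hU hne
  obtain ⟨r, A, hA, hA'⟩ := exists_const U hU hne
  exact ⟨A, hA, Set.mem_iUnion.mpr ⟨r, hA'⟩⟩

/-- rows in `J` from the second matrix -/
def hyb (J : Finset ι) : (Matrix ι ι ℝ × Matrix ι ι ℝ) →ₗ[ℝ] Matrix ι ι ℝ where
  toFun p := Matrix.of fun i j => if i ∈ J then p.2 i j else p.1 i j
  map_add' p q := by
    ext i j
    by_cases h : i ∈ J <;> simp [h]
  map_smul' c p := by
    ext i j
    by_cases h : i ∈ J <;> simp [h]

omit [Fintype ι] in
theorem hyb_surj (J : Finset ι) : Function.Surjective (hyb (ι := ι) J) := by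
  intro A
  refine ⟨(A, A), ?_⟩
  ext i j
  simp [hyb]

theorem hyb_cont (J : Finset ι) : Continuous (hyb (ι := ι) J) :=
  LinearMap.continuous_of_finiteDimensional _

theorem hyb_open (J : Finset ι) : IsOpenMap (hyb (ι := ι) J) :=
  LinearMap.isOpenMap_of_finiteDimensional _ (hyb_surj J)

omit [DecidableEq ι] in
theorem rank_add (A B : Matrix ι ι ℝ) : (A + B).rank ≤ A.rank + B.rank := by
  unfold Matrix.rank
  rw [Matrix.mulVecLin_add]
  refine le_trans (Submodule.finrank_mono (LinearMap.range_add_le _ _)) ?_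
  exact Submodule.finrank_add_le_finrank_add_finrank _ _

/-- changing one row changes the completion rank by at most one -/
theorem crank_row {A B : Matrix ι ι ℝ} {i : ι} (h : ∀ j, j ≠ i → A j = B j) :
    crank B ≤ crank A + 1 := by
  obtain ⟨d, hd⟩ := exists_crank A
  have h1 : B + Matrix.diagonal d = (A + Matrix.diagonal d) +
      Matrix.vecMulVec (Pi.single i 1) (B i - A i) := by
    ext j k
    simp only [Matrix.add_apply, Matrix.vecMulVec_apply, Pi.sub_apply]
    by_cases hji : j = i
    · rw [hji, Pi.single_eq_same]; ring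
    · rw [h j hji, Pi.single_eq_of_ne hji]; simp
  calc crank B ≤ (B + Matrix.diagonal d).rank := crank_le B d
    _ ≤ (A + Matrix.diagonal d).rank + (Matrix.vecMulVec (Pi.single i (1 : ℝ)) (B i - A i)).rank := by
        rw [h1]; exact rank_add _ _
    _ ≤ crank A + 1 := by
        rw [hd]
        exact Nat.add_le_add_left (Matrix.rank_vecMulVec_le _ _) _

/-- If the completion rank is at most `r` on a nonempty open set and at least `r + 1` on another
one, then `r` and `r + 1` are typical. -/
theorem typical_pair {r : ℕ} {U V : Set (Matrix ι ι ℝ)} (hU : IsOpen U) (hV : IsOpen V)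
    (hUn : U.Nonempty) (hVn : V.Nonempty) (hUr : ∀ A ∈ U, crank A ≤ r)
    (hVr : ∀ A ∈ V, r + 1 ≤ crank A) :
    (interior {A : Matrix ι ι ℝ | crank A = r}).Nonempty ∧
      (interior {A : Matrix ι ι ℝ | crank A = r + 1}).Nonempty := by
  classical
  have hbaire : BaireSpace (Matrix ι ι ℝ × Matrix ι ι ℝ) :=
    inferInstanceAs (BaireSpace ((ι → ι → ℝ) × (ι → ι → ℝ)))
  have hd : Dense (⋂ J : Finset ι, hyb (ι := ι) J ⁻¹' Gs ι) := by
    refine dense_iInter_of_isOpen (fun J => isOpen_Gs.preimage (hyb_cont J)) fun J => ?_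
    exact dense_Gs.preimage (hyb_open J)
  obtain ⟨⟨A, B⟩, hAB, hG⟩ := hd.inter_open_nonempty (U ×ˢ V) (hU.prod hV) (hUn.prod hVn)
  have hG' : ∀ J : Finset ι, hyb J (A, B) ∈ Gs ι := fun J => Set.mem_iInter.mp hG J
  have h0 : hyb ∅ (A, B) = A := by ext i j; simp [hyb]
  have h1 : hyb Finset.univ (A, B) = B := by ext i j; simp [hyb]
  -- first J where the completion rank exceeds r
  have hstep : ∃ J : Finset ι, ∃ i ∉ J, crank (hyb J (A, B)) ≤ r ∧
      r + 1 ≤ crank (hyb (insert i J) (A, B)) := by
    by_contra hno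
    push Not at hno
    have hall : ∀ J : Finset ι, crank (hyb J (A, B)) ≤ r := by
      intro J
      induction J using Finset.induction_on with
      | empty => rw [h0]; exact hUr A hAB.1
      | insert i J hi ih =>
        have := hno J i hi ih
        omega
    have h2 := hall Finset.univ
    rw [h1] at h2
    have h3 := hVr B hAB.2
    omega
  obtain ⟨J, i, hi, h2, h3⟩ := hstep
  have h4 : crank (hyb (insert i J) (A, B)) ≤ crank (hyb J (A, B)) + 1 := by
    refine crank_row (i := i) fun j hj => ?_
    ext k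
    by_cases hjJ : j ∈ J
    · simp [hyb, hjJ]
    · simp [hyb, hjJ, hj]
  have hcon : ∀ C ∈ Gs ι, (interior {A : Matrix ι ι ℝ | crank A = crank C}).Nonempty := by
    intro C hC
    obtain ⟨s, hs⟩ := Set.mem_iUnion.mp hC
    have h5 : C ∈ {A : Matrix ι ι ℝ | crank A = s} := interior_subset hs
    have h6 : crank C = s := h5
    rw [h6]
    exact ⟨C, hs⟩
  constructor
  · have h5 := hcon _ (hG' J)
    have h6 : crank (hyb J (A, B)) = r := by omega
    rwa [h6] at h5
  · have h5 := hcon _ (hG' (insert i J))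
    have h6 : crank (hyb (insert i J) (A, B)) = r + 1 := by omega
    rwa [h6] at h5

/-- reindexing -/
theorem crank_submatrix {κ : Type*} [Fintype κ] [DecidableEq κ] (e : κ ≃ ι) (A : Matrix ι ι ℝ) :
    crank (A.submatrix e e) = crank A := by
  unfold crank
  congr 1
  ext k
  constructor
  · rintro ⟨d, hd⟩
    refine ⟨d ∘ e.symm, ?_⟩
    rw [← hd, ← Matrix.rank_submatrix (A + Matrix.diagonal (d ∘ e.symm)) e e, Matrix.submatrix_add]
    congr 1
    simp only [Pi.add_apply]
    congr 1
    ext i j
    simp [Matrix.diagonal_apply]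
  · rintro ⟨d, hd⟩
    refine ⟨d ∘ e, ?_⟩
    rw [← hd, ← Matrix.rank_submatrix (A + Matrix.diagonal d) e e, Matrix.submatrix_add]
    congr 1
    simp only [Pi.add_apply]
    congr 1
    ext i j
    simp [Matrix.diagonal_apply]

end Pool.Agent.H42.TR
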