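import Pool.Agent.H42.TR.Interval

set_option autoImplicit false

/-! An open set of `c² × c²` matrices with completion rank at most `c² - c`. -/

open Matrix Set Filter Topology

namespace Pool.Agent.H42.TR

variable {c' : ℕ}

/-- index set of size `(c' + 1)²` -/
abbrev Ix (c' : ℕ) := Fin (c' + 1) × Fin (c' + 1)
/-- index set of size `(c' + 1) c'` -/
abbrev Kx (c' : ℕ) := Fin (c' + 1) × Fin c'

/-- the left factor -/
def X0 (c' : ℕ) : Ix c' → Kx c' → ℝ := fun p q =>
  if p.1 = q.1 then (if p.2 = q.2.succ then 1 else if p.2 = 0 then -1 else 0) else 0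

/-- the right factor -/
def Y0 (c' : ℕ) : Kx c' → Ix c' → ℝ := fun q p =>
  if p.2 = q.1 then (if p.1 = q.2.succ then 1 else if p.1 = 0 then -1 else 0) else 0

theorem X0_mul (Y : Kx c' → Ix c' → ℝ) (a b : Fin (c' + 1)) (q : Ix c') :
    ∑ k, X0 c' (a, b) k * Y k q =
      if b = 0 then - ∑ j, Y (a, j) q else ∑ j : Fin c', (if b = j.succ then Y (a, j) q else 0) := by
  rw [Fintype.sum_prod_type]
  rw [Finset.sum_eq_single a]
  · by_cases hb : b = 0
    · rw [if_pos hb, ← Finset.sum_neg_distrib]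
      refine Finset.sum_congr rfl fun j _ => ?_
      simp [X0, hb, (Fin.succ_ne_zero j).symm]
    · rw [if_neg hb]
      refine Finset.sum_congr rfl fun j _ => ?_
      by_cases hj : b = j.succ <;> simp [X0, hb, hj]
  · intro a' _ ha'
    refine Finset.sum_eq_zero fun j _ => ?_
    simp [X0, Ne.symm ha']
  · intro h
    exact absurd (Finset.mem_univ _) h

theorem mul_Y0 (X : Ix c' → Kx c' → ℝ) (a b : Fin (c' + 1)) (p : Ix c') :
    ∑ k, X p k * Y0 c' k (a, b) =
      if a = 0 then - ∑ j, X p (b, j) else ∑ j : Fin c', (if a = j.succ then X p (b, j) else 0) := by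
  rw [Fintype.sum_prod_type]
  rw [Finset.sum_eq_single b]
  · by_cases ha : a = 0
    · rw [if_pos ha, ← Finset.sum_neg_distrib]
      refine Finset.sum_congr rfl fun j _ => ?_
      simp [Y0, ha, (Fin.succ_ne_zero j).symm]
    · rw [if_neg ha]
      refine Finset.sum_congr rfl fun j _ => ?_
      by_cases hj : a = j.succ <;> simp [Y0, ha, hj]
  · intro b' _ hb'
    refine Finset.sum_eq_zero fun j _ => ?_
    simp [Y0, Ne.symm hb']
  · intro h
    exact absurd (Finset.mem_univ _) h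

/-- surjectivity of the differential -/
theorem surj_diff (N : Ix c' → Ix c' → ℝ) :
    ∃ (X : Ix c' → Kx c' → ℝ) (Y : Kx c' → Ix c' → ℝ) (d : Ix c' → ℝ), ∀ p q,
      ∑ k, (X p k * Y0 c' k q + X0 c' p k * Y k q) - (if p = q then d p else 0) = N p q := by
  classical
  -- the diagonal
  let d : Ix c' → ℝ := fun r => - ∑ a, ∑ b, N (r.1, b) (a, r.2)
  let N1 : Ix c' → Ix c' → ℝ := fun p q => N p q + if p = q then d p else 0
  have hN1 : ∀ s t : Fin (c' + 1), ∑ a, ∑ b, N1 (s, b) (a, t) = 0 := by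
    intro s t
    have h1 : ∀ a b, N1 (s, b) (a, t) = N (s, b) (a, t) +
        if a = s then (if b = t then d (s, t) else 0) else 0 := by
      intro a b
      simp only [N1, Prod.mk.injEq]
      by_cases h1 : a = s
      · by_cases h2 : b = t
        · simp [h1, h2]
        · simp [h1, h2]
      · simp [h1, Ne.symm h1]
    simp only [h1, Finset.sum_add_distrib, Finset.sum_ite_eq', Finset.sum_ite_irrel,
      Finset.mem_univ, if_true, Finset.sum_const_zero]
    simp only [d]
    ring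
  -- the factor Y
  let Y : Kx c' → Ix c' → ℝ := fun k q => N1 (k.1, k.2.succ) q
  let R : Ix c' → Ix c' → ℝ := fun p q => N1 p q - ∑ k, X0 c' p k * Y k q
  have hR0 : ∀ a q, R (a, 0) q = ∑ b, N1 (a, b) q := by
    intro a q
    simp only [R]
    rw [X0_mul, if_pos rfl, Fin.sum_univ_succ]
    simp only [Y]
    ring
  have hRs : ∀ a (j : Fin c') q, R (a, j.succ) q = 0 := by
    intro a j q
    simp only [R]
    rw [X0_mul, if_neg (Fin.succ_ne_zero j)]
    simp only [Y, Fin.succ_inj]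
    simp
  have hRsum : ∀ p t, ∑ a, R p (a, t) = 0 := by
    rintro ⟨s, b⟩ t
    refine Fin.cases ?_ (fun j => ?_) b
    · simp only [hR0]
      exact hN1 s t
    · simp only [hRs]; simp
  let X : Ix c' → Kx c' → ℝ := fun p k => R p (k.2.succ, k.1)
  refine ⟨X, Y, d, ?_⟩
  rintro p ⟨a, b⟩
  have hX : ∑ k, X p k * Y0 c' k (a, b) = R p (a, b) := by
    rw [mul_Y0]
    by_cases ha : a = 0
    · rw [if_pos ha]
      have h1 := hRsum p b
      rw [Fin.sum_univ_succ] at h1
      simp only [X]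
      rw [ha]
      linarith
    · rw [if_neg ha]
      obtain ⟨j, rfl⟩ := Fin.exists_succ_eq.mpr ha
      simp only [X, Fin.succ_inj]
      simp
  rw [Finset.sum_add_distrib, hX]
  simp only [R, N1]
  ring

/-- the parametrisation -/
def Φ (c' : ℕ) : ((Ix c' → Kx c' → ℝ) × (Kx c' → Ix c' → ℝ) × (Ix c' → ℝ)) → Ix c' → Ix c' → ℝ :=
  fun P p q => ∑ k, P.1 p k * P.2.1 k q - (if p = q then P.2.2 p else 0)

theorem exists_low (c' : ℕ) : ∃ A0 : Matrix (Ix c') (Ix c') ℝ,
    ∀ᶠ A in 𝓝 A0, crank A ≤ (c' + 1) * c' := by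
  classical
  let P0 : (Ix c' → Kx c' → ℝ) × (Kx c' → Ix c' → ℝ) × (Ix c' → ℝ) := (X0 c', Y0 c', 0)
  have hsm : ContDiff ℝ 1 (Φ c') := by
    refine contDiff_pi.mpr fun p => contDiff_pi.mpr fun q => ?_
    unfold Φ
    refine ContDiff.sub (ContDiff.sum fun k _ => ContDiff.mul ?_ ?_) ?_
    · fun_prop
    · fun_prop
    · split_ifs <;> fun_prop
  have hst : HasStrictFDerivAt (Φ c') (fderiv ℝ (Φ c') P0) P0 :=
    hsm.contDiffAt.hasStrictFDerivAt (by norm_num)
  -- the derivative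
  have hder : ∀ V : (Ix c' → Kx c' → ℝ) × (Kx c' → Ix c' → ℝ) × (Ix c' → ℝ), ∀ p q,
      fderiv ℝ (Φ c') P0 V p q =
        ∑ k, (V.1 p k * Y0 c' k q + X0 c' p k * V.2.1 k q) - (if p = q then V.2.2 p else 0) := by
    intro V p q
    have h1 : HasDerivAt (fun t : ℝ => Φ c' (P0 + t • V)) (fderiv ℝ (Φ c') P0 V) 0 := by
      have h2 : HasFDerivAt (Φ c') (fderiv ℝ (Φ c') P0) (P0 + (0 : ℝ) • V) := by
        rw [zero_smul, add_zero]; exact hst.hasFDerivAt
      have h3 : HasDerivAt (fun t : ℝ => P0 + t • V) V 0 := by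
        have h4 := (hasDerivAt_id (0 : ℝ)).smul_const V
        have h5 := h4.const_add P0
        simpa using h5
      exact h2.comp_hasDerivAt (0 : ℝ) h3
    have h2 : HasDerivAt (fun t : ℝ => Φ c' (P0 + t • V) p q) (fderiv ℝ (Φ c') P0 V p q) 0 := by
      have h3 := hasDerivAt_pi.mp h1 p
      exact hasDerivAt_pi.mp h3 q
    have h3 : HasDerivAt (fun t : ℝ => Φ c' (P0 + t • V) p q)
        (∑ k, (V.1 p k * Y0 c' k q + X0 c' p k * V.2.1 k q) - (if p = q then V.2.2 p else 0)) 0 := by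
      have h4 : (fun t : ℝ => Φ c' (P0 + t • V) p q) = fun t : ℝ =>
          ∑ k, (X0 c' p k + t * V.1 p k) * (Y0 c' k q + t * V.2.1 k q) -
            (if p = q then t * V.2.2 p else 0) := by
        ext t
        simp [Φ, P0]
      rw [h4]
      refine HasDerivAt.sub (HasDerivAt.fun_sum fun k _ => ?_) ?_
      · have h5 : HasDerivAt (fun t : ℝ => X0 c' p k + t * V.1 p k) (V.1 p k) 0 := by
          simpa using ((hasDerivAt_id (0 : ℝ)).mul_const (V.1 p k)).const_add (X0 c' p k)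
        have h6 : HasDerivAt (fun t : ℝ => Y0 c' k q + t * V.2.1 k q) (V.2.1 k q) 0 := by
          simpa using ((hasDerivAt_id (0 : ℝ)).mul_const (V.2.1 k q)).const_add (Y0 c' k q)
        have h7 := h5.fun_mul h6
        have h8 : V.1 p k * Y0 c' k q + X0 c' p k * V.2.1 k q =
            V.1 p k * (Y0 c' k q + 0 * V.2.1 k q) + (X0 c' p k + 0 * V.1 p k) * V.2.1 k q := by ring
        rw [h8]
        exact h7
      · split_ifs
        · simpa using (hasDerivAt_id (0 : ℝ)).mul_const (V.2.2 p)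
        · exact hasDerivAt_const _ _
    exact h2.unique h3
  have hsurj : (fderiv ℝ (Φ c') P0).range = ⊤ := by
    rw [eq_top_iff]
    intro N _
    obtain ⟨X, Y, d, h⟩ := surj_diff N
    refine ⟨(X, Y, d), ?_⟩
    ext p q
    rw [← h p q]
    exact hder (X, Y, d) p q
  have hmap := hst.map_nhds_eq_of_surj hsurj
  refine ⟨Φ c' P0, ?_⟩
  have h1 : Set.range (Φ c') ∈ 𝓝 (Φ c' P0) := by
    rw [← hmap]
    exact Filter.range_mem_map
  filter_upwards [h1] with A hA
  obtain ⟨P, rfl⟩ := hA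
  have h2 : (Matrix.of (Φ c' P) : Matrix (Ix c') (Ix c') ℝ) + Matrix.diagonal P.2.2 =
      (Matrix.of P.1 : Matrix (Ix c') (Kx c') ℝ) * (Matrix.of P.2.1 : Matrix (Kx c') (Ix c') ℝ) := by
    ext p q
    rw [Matrix.add_apply, Matrix.mul_apply, Matrix.diagonal_apply]
    simp only [Φ, Matrix.of_apply]
    ring
  calc crank (Matrix.of (Φ c' P) : Matrix (Ix c') (Ix c') ℝ) ≤
        ((Matrix.of (Φ c' P) : Matrix (Ix c') (Ix c') ℝ) + Matrix.diagonal P.2.2).rank := crank_le _ _
    _ ≤ (Matrix.of P.1 : Matrix (Ix c') (Kx c') ℝ).rank := by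
        rw [h2]; exact Matrix.rank_mul_le_left _ _
    _ ≤ Fintype.card (Kx c') := Matrix.rank_le_card_width _
    _ = (c' + 1) * c' := by simp

end Pool.Agent.H42.TR
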